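import Pool.Agent.Helper36.UP.Lv

/-!
# Project DV (MP_973bc8_pr), UP half: blocks of level zero at a fixed ratio, lattice form
-/

open Finset RP4 DV LG Filter

namespace FC

variable {D E : Finset V} {h g : V → ℤ} {x y z : V} {n N a k l s T : ℤ} {c : ℝ} {K n0 : ℤ}

lemma Blk_mono {N' : ℤ} (hN : N ≤ N') (h1 : Blk x n N k h) : Blk x n N' k h := by
  rintro ⟨u, hu, v, hv, huv⟩
  exact h1 ⟨u, hu, v, fun h2 => hv (Sq_mono hN h2), huv⟩

/-- at a fixed ratio some level of bounded size is blocked with probability at least `1 / 2` -/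
theorem lev_main (hLP : LP c K n0) (hc : 0 < c) {C : ℝ} (hC0 : 0 ≤ C) (hC : Lgs C) :
    ∃ L : ℤ, 1 ≤ L ∧ ∀ j : ℕ, ∃ T : ℕ, ∀ n : ℤ, 1 ≤ n → ∀ (x : V) (D : Finset V), SC D →
      Sq x (L * n) ⊆ (D : Set V) → (∃ v ∈ Sq x (n * 2 ^ j), v ∉ D) →
      avg (Om D) (fun h => ind (NBl x n (L * n) T 0 h)) ≤ 1 / 2 := by
  obtain ⟨d, hd⟩ : ∃ d : ℝ, d = min c 1 := ⟨_, rfl⟩
  have hd0 : 0 < d := by rw [hd]; exact lt_min hc one_pos
  have hd1 : d ≤ 1 := by rw [hd]; exact min_le_right _ _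
  have hLPd : LP d K n0 := LP.mono hLP (by rw [hd]; exact min_le_left _ _)
  obtain ⟨s, hs⟩ := exists_pow_lt_of_lt_one (show (0 : ℝ) < 1 / 8 by norm_num)
    (show 1 - d < 1 by linarith)
  obtain ⟨B, hB⟩ : ∃ B : ℕ, 2 * |K| + |n0| + 6 < 2 ^ B := by
    obtain ⟨B, hB⟩ := pow_unbounded_of_one_lt (2 * |K| + |n0| + 6) (show (1 : ℤ) < 2 by norm_num)
    exact ⟨B, hB⟩
  have hn0 := abs_nonneg n0
  have hn0' := le_abs_self n0
  have hK := abs_nonneg K
  have ht := tends_beta C (B * s + B + 2) B (show (0 : ℝ) ≤ 1 - d / 2 by linarith)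
    (show 1 - d / 2 < 1 by linarith)
  obtain ⟨a, ha, ha0⟩ := ((ht.eventually (gt_mem_nhds (show (0 : ℝ) < 1 / 8 by norm_num))).and
    (eventually_gt_atTop 0)).exists
  obtain ⟨J, hJ⟩ : ∃ J : ℕ, J = B * s + B + 2 + B * a := ⟨_, rfl⟩
  refine ⟨2 ^ J, one_le_pow₀ (by norm_num), fun j => ?_⟩
  obtain ⟨b, hb⟩ := exists_nat_gt (max 1 (4 * (C * (1 + j))))
  have hb1 : (1 : ℝ) < b := (le_max_left _ _).trans_lt hb
  have hb2 : 4 * (C * (1 + j)) < b := (le_max_right _ _).trans_lt hb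
  refine ⟨a + b, fun n hn x D hD hDn hDj => ?_⟩
  obtain ⟨N, hN⟩ : ∃ N : ℤ, N = (|n0| + 5) * (2 * |K| + 6) ^ a * n := ⟨_, rfl⟩
  obtain ⟨N1, hN1⟩ : ∃ N1 : ℤ, N1 = (|K| + 2) ^ s * (N + 1) + 1 := ⟨_, rfl⟩
  have e1 : (1 : ℤ) ≤ (2 * |K| + 6) ^ a := one_le_pow₀ (by omega)
  have e2 : (1 : ℤ) ≤ (|K| + 2) ^ s := one_le_pow₀ (by omega)
  have hNn : |n0| + 5 ≤ N := by
    rw [hN]
    have h1 : |n0| + 5 ≤ (|n0| + 5) * (2 * |K| + 6) ^ a := by nlinarith
    nlinarith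
  have hnN : n ≤ N := by
    rw [hN]
    have h1 : 1 ≤ (|n0| + 5) * (2 * |K| + 6) ^ a := by nlinarith
    nlinarith
  have hNN1 : N + 1 ≤ N1 := by
    rw [hN1]
    nlinarith
  have hN1L : N1 ≤ 2 ^ J * n := by
    have i1 : (2 * |K| + 6) ^ a ≤ ((2 : ℤ) ^ B) ^ a := pow_le_pow_left₀ (by omega) (by omega) a
    have i2 : (|K| + 2) ^ s ≤ ((2 : ℤ) ^ B) ^ s := pow_le_pow_left₀ (by omega) (by omega) s
    have i3 : N ≤ 2 ^ B * (2 ^ B) ^ a * n := by
      rw [hN]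
      refine mul_le_mul_of_nonneg_right ?_ (by omega)
      exact mul_le_mul (by omega) i1 (by omega) (by positivity)
    have i4 : N + 1 ≤ 2 * (2 ^ B * (2 ^ B) ^ a * n) := by omega
    have i5 : (|K| + 2) ^ s * (N + 1) ≤ (2 ^ B) ^ s * (2 * (2 ^ B * (2 ^ B) ^ a * n)) :=
      mul_le_mul i2 i4 (by omega) (by positivity)
    have i6 : (1 : ℤ) ≤ (|K| + 2) ^ s * (N + 1) := by nlinarith
    have i7 : N1 ≤ 2 * ((2 ^ B) ^ s * (2 * (2 ^ B * (2 ^ B) ^ a * n))) := by omega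
    refine i7.trans (le_of_eq ?_)
    rw [hJ, pow_add, pow_add, pow_add, pow_mul, pow_mul]
    ring
  have hx : x ∈ Sq x n := ⟨by simp; omega, by simp; omega⟩
  obtain ⟨z, hz⟩ : ∃ z : V, z = (x.1 + n, x.2) := ⟨_, rfl⟩
  have hz1 : z ∈ Sq x n := by
    rw [hz]
    refine ⟨?_, ?_⟩
    · simp only [add_sub_cancel_left]
      rw [abs_of_nonneg (by omega)]
    · simp only [sub_self, abs_zero]
      omega
  have hz2 : z ∉ Sq x (n - 1) := by
    rw [hz, not_mem_Sq]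
    left
    simp only
    omega
  have hβ : ∀ E : Finset V, SC E → Sq x (N + 1) ⊆ (E : Set V) → ¬ Sq x N1 ⊆ (E : Set V) →
      avg (Om E) (fun h => ind (NBl x n N a 0 h)) ≤
        C * (1 + J) / (a : ℝ) ^ 2 + (2 * a + 1) * (1 - d / 2) ^ a := by
    intro E hE hE1 hE2
    have h1 := fivec2 (x := x) (c := d) hLPd hd0.le hd1 hE a (r := n) (M := N) hn hN.ge hE1 ha0 hx
      hz1
    have h2 : Sq x n ⊆ (E : Set V) := (Sq_mono (by omega)).trans hE1
    have h3 : avg (Om E) (fun h => (h x : ℝ) * h z) ≤ C * (1 + J) := by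
      refine hC n hn J x z hz1 hz2 E hE (h2 hx) (h2 hz1) ?_
      rw [Set.not_subset] at hE2
      obtain ⟨v, hv, hv'⟩ := hE2
      exact ⟨v, Sq_mono (by rw [mul_comm]; exact hN1L) hv, hv'⟩
    have h4 : avg (Om E) (fun h => (h x : ℝ) * h z) / (a : ℝ) ^ 2 ≤ C * (1 + J) / (a : ℝ) ^ 2 :=
      div_le_div_of_nonneg_right h3 (by positivity)
    linarith
  have hβ0 : 0 ≤ C * (1 + J) / (a : ℝ) ^ 2 + (2 * a + 1) * (1 - d / 2) ^ a := by
    have h1 : (0 : ℝ) ≤ (1 - d / 2) ^ a := pow_nonneg (by linarith) a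
    positivity
  have hbn : 0 < b := by
    have : (0 : ℝ) < b := by linarith
    exact_mod_cast this
  have hab : (a : ℤ) < ((a + b : ℕ) : ℤ) := by
    push_cast
    omega
  have h1 := lev5 (x := x) hLPd hd1 s (r := n) (N := N) (N1 := N1) (a := a) (T := ((a + b : ℕ) : ℤ))
    (by omega) (by omega) (by omega) (by omega) hβ0 hab hβ (hy := Sq_mono (by omega) hx)
    (hz := Sq_mono (by omega) hz1) D hD ((Sq_mono (by omega)).trans hDn) 0
  have h2 : avg (Om D) (fun h => ind (NBl x n (2 ^ J * n) ((a + b : ℕ) : ℤ) 0 h)) ≤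
      avg (Om D) (fun h => ind (NBl x n N ((a + b : ℕ) : ℤ) 0 h)) := by
    refine avg_mono fun h _ => ind_le_ind fun hh k hk hkl hb => ?_
    exact hh k hk hkl (Blk_mono (by omega) hb)
  have h3 : C * (1 + J) / (a : ℝ) ^ 2 + (2 * a + 1) * (1 - d / 2) ^ a < 1 / 8 := by
    rw [hJ]
    exact ha
  have h4 : avg (Om D) (fun h => (h x : ℝ) * h z) ≤ C * (1 + j) :=
    hC n hn j x z hz1 hz2 D hD (hDn (Sq_mono (by omega) hx)) (hDn (Sq_mono (by omega) hz1)) hDj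
  have h5 : (((0 : ℤ) : ℝ) ^ 2 + avg (Om D) (fun h => (h x : ℝ) * h z)) /
      ((((a + b : ℕ) : ℤ) - (a : ℤ) : ℤ) : ℝ) ^ 2 ≤ 1 / 4 := by
    have h6 : ((((a + b : ℕ) : ℤ) - (a : ℤ) : ℤ) : ℝ) = b := by
      push_cast
      ring
    rw [h6, div_le_div_iff₀ (by positivity) (by norm_num)]
    push_cast
    have h7 : (b : ℝ) ≤ (b : ℝ) ^ 2 := by nlinarith
    linarith
  linarith

/-- no path of sites of `D` with `h ≠ 0` -/
def Db (D : Finset V) (x : V) (n N : ℤ) (h : V → ℤ) : Prop :=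
  ¬ ∃ u v, u ∈ Sq x n ∧ v ∉ Sq x N ∧ Con {w | w ∈ D ∧ h w ≠ 0} u v

lemma dec_Db (D : Finset V) (x : V) (n N : ℤ) : Dec (Db D x n N) := by
  refine ⟨fun g => ?_, fun g g' h1 h2 h3 => ?_⟩
  · have e : {w : V | w ∈ D ∧ absf g w ≠ 0} = {w | w ∈ D ∧ g w ≠ 0} := by
      ext w
      show (w ∈ D ∧ |g w| ≠ 0) ↔ (w ∈ D ∧ g w ≠ 0)
      rw [ne_eq, abs_eq_zero]
    unfold Db
    rw [e]
  · rintro ⟨u, v, hu, hv, huv⟩
    refine h3 ⟨u, v, hu, hv, huv.mono (fun _ _ h => h) fun w hw => ⟨hw.1, ?_⟩⟩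
    have h5 : g w ≠ 0 := hw.2
    have h6 := h1 w
    have h7 := h2 w
    show g' w ≠ 0
    omega

/-- a blocked level as an event in `D` -/
lemma blk_iff_Db (hD : Sq x (N + 1) ⊆ (D : Set V)) (hnN : n ≤ N) :
    Blk x n N k h ↔ ¬ ∃ u v, u ∈ Sq x n ∧ v ∉ Sq x N ∧ Con {w | w ∈ D ∧ h w ≠ k} u v := by
  unfold Blk
  refine not_congr ⟨?_, ?_⟩
  · rintro ⟨u, hu, v, hv, huv⟩
    rcases exit' huv (A := Sq x N) (Sq_mono hnN hu) with h1 | ⟨a, b, h1, h2, -, -, h3, h4⟩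
    · exact absurd h1.right.2 hv
    · refine ⟨u, b, hu, h4, ?_⟩
      have h5 : Con {w | w ∈ D ∧ h w ≠ k} u a := h1.mono (fun _ _ h => h) fun w hw =>
        ⟨hD (Sq_mono (by omega) hw.2), hw.1⟩
      have h6 : b ∈ Sq x (N + 1) := adj_sq (n := N + 1) (adj_symm h2) (by
        have := h1.right.2
        rwa [add_sub_cancel_right])
      exact h5.step h2 ⟨hD h6, h3⟩
  · rintro ⟨u, v, hu, hv, huv⟩
    exact ⟨u, hu, v, hv, huv.mono (fun _ _ h => h) fun w hw => hw.2⟩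

/-- blocks of level zero are the most likely ones -/
theorem blk_le_zero (hD : BdryPar D 0) (hf : Sq x (N + 1) ⊆ (D : Set V)) (hnN : n ≤ N)
    (hk : Even k) : pr (Om D) (Blk x n N k) ≤ pr (Om D) (Blk x n N 0) := by
  have hZ : ∀ v ∈ bdry D, Even (par v + 0) := fun v hv => by
    have h1 := hD v hv
    rw [Int.even_iff] at h1 ⊢
    omega
  have hbZ : (bdry D : Set V) ⊆ ((bdry D : Finset V) : Set V) := subset_rfl
  have hZD' : ((bdry D : Finset V) : Set V) ⊆ (D : Set V) := by exact_mod_cast bdry_subset D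
  have hne : ∀ s : ℤ, Even s → (Hb D 0 ((bdry D : Finset V) : Set V) fun _ => s).Nonempty := by
    intro s hs
    have h1 : flat D 0 ∈ Zs D 0 (bdry D) := flat_mem_Zs subset_rfl (bdry_subset D) fun v hv => by
      have h1 := hZ v hv
      rw [Int.even_iff] at h1 ⊢
      omega
    rw [mem_Zs subset_rfl] at h1
    refine ⟨rfc D s (flat D 0), (mem_Hb hbZ).2 ⟨hom_congr (rfc_hom h1.1) ?_, fun v hv => ?_⟩⟩
    · rwa [add_sub_cancel_left]
    · rw [rfc_in (hZD' hv), h1.2 v (by exact_mod_cast hv), sub_zero]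
  have key : ∀ k : ℤ, Even k → 0 ≤ k → pr (Om D) (Blk x n N k) ≤ pr (Om D) (Blk x n N 0) := by
    intro k hk hk0
    have e1 := pr_rfc (D := D) (p := 0) (s := k) hk (Z := ((bdry D : Finset V) : Set V))
      (β := fun _ => k) hbZ hZD' (Blk x n N k)
    have e2 : (fun v : V => k - (fun _ : V => k) v) = 0 := by
      funext v
      simp
    rw [e2, ← Zs_eq_Hb subset_rfl] at e1
    have e3 : pr (Hb D 0 ((bdry D : Finset V) : Set V) fun _ => k) (Db D x n N) =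
        pr (Zs D 0 (bdry D)) (Blk x n N k) := by
      rw [← e1]
      refine pr_congr fun g _ => ?_
      rw [blk_iff_Db hf hnN]
      unfold Db
      have e : {w : V | w ∈ D ∧ rfc D k g w ≠ k} = {w | w ∈ D ∧ g w ≠ 0} := by
        ext w
        show (w ∈ D ∧ rfc D k g w ≠ k) ↔ (w ∈ D ∧ g w ≠ 0)
        refine and_congr_right fun hw => ?_
        rw [rfc_in hw]
        omega
      rw [e]
    have e4 : pr (Hb D 0 ((bdry D : Finset V) : Set V) fun _ => 0) (Db D x n N) =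
        pr (Zs D 0 (bdry D)) (Blk x n N 0) := by
      have h1 : (fun _ : V => (0 : ℤ)) = 0 := rfl
      rw [h1, ← Zs_eq_Hb subset_rfl]
      refine pr_congr fun g _ => ?_
      rw [blk_iff_Db hf hnN]
      rfl
    have h1 := bdv_inc (D := D) (p := 0) (Z := ((bdry D : Finset V) : Set V)) (β := fun _ => k)
      (β' := fun _ => 0) (fun _ _ => le_rfl) (fun _ _ => hk0) (fun g => mem_Hb hbZ)
      (fun g => mem_Hb hbZ) (hne 0 Even.zero) (hne k hk) (dec_Db D x n N).not.incF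
    have h2 : pr (Hb D 0 ((bdry D : Finset V) : Set V) fun _ => 0) (fun g => ¬ Db D x n N g) ≤
        pr (Hb D 0 ((bdry D : Finset V) : Set V) fun _ => k) (fun g => ¬ Db D x n N g) := h1
    rw [pr_not (hne 0 Even.zero), pr_not (hne k hk), e3, e4] at h2
    have h3 : pr (Zs D 0 (bdry D)) (Blk x n N k) ≤ pr (Zs D 0 (bdry D)) (Blk x n N 0) := by
      linarith
    exact h3
  rcases abs_cases k with h | h
  · exact key k hk (by omega)
  · refine le_trans (le_of_eq ?_) (key (-k) hk.neg (by omega))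
    have h1 := pr_neg_Zs (D := D) (p := 0) (Z := bdry D) subset_rfl (Blk x n N k)
    have h2 : pr (Zs D 0 (bdry D)) (fun h => Blk x n N k (-h)) = pr (Om D) (Blk x n N k) := h1
    rw [← h2]
    refine pr_congr fun h _ => ?_
    have e : {w : V | (-h) w ≠ k} = {w | h w ≠ -k} := by
      ext w
      show -(h w) ≠ k ↔ h w ≠ -k
      omega
    unfold Blk
    rw [e]

/-- the level zero is blocked with positive probability at a fixed ratio -/
theorem blk_zero (hLP : LP c K n0) (hc : 0 < c) {C : ℝ} (hC0 : 0 ≤ C) (hC : Lgs C) :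
    ∃ L : ℤ, 1 ≤ L ∧ ∀ j : ℕ, ∃ q : ℝ, 0 < q ∧ ∀ n : ℤ, 1 ≤ n → ∀ (x : V) (D : Finset V), SC D →
      Sq x (L * n + 1) ⊆ (D : Set V) → (∃ v ∈ Sq x (n * 2 ^ j), v ∉ D) →
      q ≤ pr (Om D) (Blk x n (L * n) 0) := by
  classical
  obtain ⟨L, hL, h⟩ := lev_main hLP hc hC0 hC
  refine ⟨L, hL, fun j => ?_⟩
  obtain ⟨T, hT⟩ := h j
  refine ⟨1 / 2 / (2 * T + 1), by positivity, fun n hn x D hD hDn hDj => ?_⟩
  have h1 := hT n hn x D hD ((Sq_mono (by omega)).trans hDn) hDj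
  have hnL : n ≤ L * n := by nlinarith
  have h2 : ∀ g ∈ Om D, (1 : ℝ) ≤ ind (NBl x n (L * n) T 0 g) +
      ∑ k ∈ Finset.Icc (-(T : ℤ)) T, ind (Even k ∧ Blk x n (L * n) k g) := by
    intro g _
    by_cases h3 : NBl x n (L * n) T 0 g
    · rw [ind_true h3]
      have : 0 ≤ ∑ k ∈ Finset.Icc (-(T : ℤ)) T, ind (Even k ∧ Blk x n (L * n) k g) :=
        sum_nonneg fun _ _ => ind_nonneg _
      linarith
    · have h4 : ∃ k, Even k ∧ |k + 0| ≤ (T : ℤ) ∧ Blk x n (L * n) k g := by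
        by_contra h5
        push Not at h5
        exact h3 h5
      obtain ⟨k, hk, hka, hkc⟩ := h4
      rw [add_zero, abs_le] at hka
      have h6 := single_le_sum (f := fun k => ind (Even k ∧ Blk x n (L * n) k g))
        (fun _ _ => ind_nonneg _) (mem_Icc.2 hka)
      simp only [ind_true (show Even k ∧ Blk x n (L * n) k g from ⟨hk, hkc⟩)] at h6
      have h7 := ind_nonneg (NBl x n (L * n) T 0 g)
      linarith
  have h3 := avg_mono h2
  rw [avg_add', avg_sum'] at h3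
  have hne : (Om D).Nonempty := Om_nonempty hD.par
  have h4 : avg (Om D) (fun _ => (1 : ℝ)) = 1 := by
    unfold avg
    rw [sum_const, nsmul_eq_mul, mul_one]
    exact div_self (by exact_mod_cast hne.card_pos.ne')
  have h5 : ∀ k ∈ Finset.Icc (-(T : ℤ)) T,
      avg (Om D) (fun g => ind (Even k ∧ Blk x n (L * n) k g)) ≤ pr (Om D) (Blk x n (L * n) 0) := by
    intro k _
    by_cases hk : Even k
    · refine le_trans ?_ (blk_le_zero (x := x) hD.par hDn hnL hk)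
      rw [pr_eq_ind]
      exact avg_mono fun g _ => ind_le_ind fun h6 => h6.2
    · have h5 : avg (Om D) (fun g => ind (Even k ∧ Blk x n (L * n) k g)) ≤ 0 := by
        refine le_trans (avg_mono (G := fun _ => 0) fun g _ => ?_) (le_of_eq ?_)
        · rw [ind_false fun h6 => hk h6.1]
        · unfold avg
          simp
      exact h5.trans (pr_nonneg _ _)
  have h6 := sum_le_card_nsmul _ _ _ h5
  have h7 : (Finset.Icc (-(T : ℤ)) T).card = 2 * T + 1 := by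
    rw [Int.card_Icc]
    omega
  rw [h7, nsmul_eq_mul] at h6
  push_cast at h6
  rw [h4] at h3
  rw [div_le_iff₀ (by positivity)]
  linarith

end FC
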