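import Pool.Agent.Helper36.UP.Gp
import Pool.Agent.Helper36.DV.Fh
import Pool.Agent.Helper94.BR.Po
import Pool.Agent.Helper64.WD.Zw
import Pool.Agent.Helper83.WB.Li

/-!
# Project DV (MP_973bc8_pr), UP half: positivity of the blocks of a fixed ratio
-/

open Finset Filter Topology

namespace DV

open RP4 (V Adj BdryPar Om dom avg mu Loc Deloc dist1 cnt diam mem_diam)
open GF (Pl)

namespace GP

/-- radii for which blocks of level zero have probability at least `c` in flat domains inside the ball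
of radius `L` -/
def Gdc (c L r s : ℝ) : Prop := ∀ᶠ δ in 𝓝[>] (0 : ℝ), ∀ (z : Pl) (D : Finset V), BdryPar D 0 →
  Inn δ z s ⊆ (D : Set V) → (D : Set V) ⊆ Inn δ 0 L → c ≤ pr (Om D) (Bk 0 δ z r s)

lemma small {a : ℝ} (ha : 0 < a) : ∀ᶠ δ in 𝓝[>] (0 : ℝ), δ < a :=
  (eventually_lt_nhds ha).filter_mono nhdsWithin_le_nhds

/-- the lattice site next to a point -/
noncomputable def ctr (δ : ℝ) (z : Pl) : V := (⌊z.1 / δ⌋, ⌊z.2 / δ⌋)

lemma floor_close {δ : ℝ} (hδ : 0 < δ) (c : ℝ) : |δ * (⌊c / δ⌋ : ℝ) - c| ≤ δ := by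
  have h1 := Int.floor_le (c / δ)
  have h2 := Int.lt_floor_add_one (c / δ)
  have h3 : c = δ * (c / δ) := by field_simp
  rw [abs_le]
  constructor
  · nlinarith
  · nlinarith

/-- near points are in the square -/
lemma mem_sq_of_dist {δ : ℝ} (hδ : 0 < δ) {z : Pl} {v : V} {r : ℝ} (hv : dist (pt δ v) z ≤ r) {n : ℤ}
    (hn : r / δ + 1 ≤ n) : v ∈ Sq (ctr δ z) n := by
  rw [Prod.dist_eq, max_le_iff, Real.dist_eq, Real.dist_eq] at hv
  unfold pt at hv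
  have key : ∀ (a : ℤ) (c : ℝ), |δ * (a : ℝ) - c| ≤ r → |a - ⌊c / δ⌋| ≤ n := by
    intro a c h1
    have h2 := floor_close hδ c
    have h3 : |δ * ((a : ℝ) - (⌊c / δ⌋ : ℝ))| ≤ r + δ := by
      have e : δ * ((a : ℝ) - (⌊c / δ⌋ : ℝ)) = (δ * a - c) - (δ * (⌊c / δ⌋ : ℝ) - c) := by ring
      rw [e]
      exact (abs_sub _ _).trans (by linarith)
    rw [abs_mul, abs_of_pos hδ] at h3
    have h4 : |(a : ℝ) - (⌊c / δ⌋ : ℝ)| ≤ r / δ + 1 := by
      rw [← mul_le_mul_iff_right₀ hδ]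
      refine h3.trans (le_of_eq ?_)
      field_simp
    have h5 : ((|a - ⌊c / δ⌋| : ℤ) : ℝ) ≤ n := by
      push_cast
      exact h4.trans hn
    exact_mod_cast h5
  exact ⟨key _ _ hv.1, key _ _ hv.2⟩

/-- points of the square are near -/
lemma dist_of_mem_sq {δ : ℝ} (hδ : 0 < δ) {z : Pl} {v : V} {n : ℤ} (hv : v ∈ Sq (ctr δ z) n) :
    dist (pt δ v) z ≤ δ * n + δ := by
  rw [Prod.dist_eq, max_le_iff, Real.dist_eq, Real.dist_eq]
  unfold pt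
  have key : ∀ (a : ℤ) (c : ℝ), |a - ⌊c / δ⌋| ≤ n → |δ * (a : ℝ) - c| ≤ δ * n + δ := by
    intro a c h1
    have h2 := floor_close hδ c
    have h3 : |(a : ℝ) - (⌊c / δ⌋ : ℝ)| ≤ n := by
      have : ((|a - ⌊c / δ⌋| : ℤ) : ℝ) ≤ n := by exact_mod_cast h1
      push_cast at this
      exact this
    have e : δ * (a : ℝ) - c = δ * ((a : ℝ) - (⌊c / δ⌋ : ℝ)) + (δ * (⌊c / δ⌋ : ℝ) - c) := by ring
    rw [e]
    refine (abs_add_le _ _).trans ?_
    rw [abs_mul, abs_of_pos hδ]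
    have h4 := mul_le_mul_of_nonneg_left h3 hδ.le
    linarith
  exact ⟨key _ _ hv.1, key _ _ hv.2⟩

/-- blocks of level zero have positive probability at a fixed ratio -/
theorem exists_gdc : ∃ κ : ℝ, 0 < κ ∧ κ < 1 ∧ ∀ L t : ℝ, 0 < t → ∃ c : ℝ, 0 < c ∧
    Gdc c L (κ * t) t := by
  obtain ⟨c₀, K, n0, hc₀, -, -, hLP⟩ := AL.exists_LP
  obtain ⟨C, hC0, hC⟩ := FC.exists_lgs hLP hc₀
  obtain ⟨A, hA1, hA⟩ := FC.blk_zero hLP hc₀ hC0 hC
  have hA1' : (1 : ℝ) ≤ A := by exact_mod_cast hA1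
  refine ⟨1 / (2 * A), by positivity, ?_, fun L t ht => ?_⟩
  · rw [div_lt_one (by positivity)]
    linarith
  obtain ⟨κ, hκ⟩ : ∃ κ : ℝ, κ = 1 / (2 * A) := ⟨_, rfl⟩
  rw [← hκ]
  have hκ0 : 0 < κ := by rw [hκ]; positivity
  have hκA : κ * A = 1 / 2 := by
    rw [hκ]
    field_simp
  have hκ1 : κ ≤ 1 / 2 := by nlinarith
  obtain ⟨j, hj⟩ := pow_unbounded_of_one_lt ((3 * |L| + 4) / (κ * t)) (show (1 : ℝ) < 2 by norm_num)
  have hj' : 3 * |L| + 4 < κ * t * 2 ^ j := by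
    rw [div_lt_iff₀ (by positivity)] at hj
    linarith
  obtain ⟨q, hq, hq'⟩ := hA j
  refine ⟨q, hq, ?_⟩
  unfold Gdc
  filter_upwards [self_mem_nhdsWithin, small one_pos, small (show 0 < t / (8 * (A + 1)) by positivity)]
    with δ hδ hδ1 hδt z D hD h1 h2
  have hδ0 : 0 < δ := hδ
  have hδA : δ * (8 * (A + 1)) < t := by
    rw [lt_div_iff₀ (by positivity)] at hδt
    exact hδt
  have hδt' : 8 * δ < t := by nlinarith
  obtain ⟨n, hn⟩ : ∃ n : ℤ, n = ⌈κ * t / δ⌉ + 2 := ⟨_, rfl⟩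
  have hn1 : κ * t / δ + 2 ≤ n := by
    rw [hn]
    push_cast
    have := Int.le_ceil (κ * t / δ)
    linarith
  have hn2 : (n : ℝ) ≤ κ * t / δ + 3 := by
    rw [hn]
    push_cast
    have := Int.ceil_lt_add_one (κ * t / δ)
    linarith
  have hq0 : 0 < κ * t / δ := by positivity
  have hn3 : (1 : ℤ) ≤ n := by
    have : (1 : ℝ) ≤ n := by linarith
    exact_mod_cast this
  have hδn : δ * n ≤ κ * t + 3 * δ := by
    have h3 := mul_le_mul_of_nonneg_left hn2 hδ0.le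
    refine h3.trans (le_of_eq ?_)
    field_simp
  have hδn' : κ * t + 2 * δ ≤ δ * n := by
    have h3 := mul_le_mul_of_nonneg_left hn1 hδ0.le
    refine le_trans (le_of_eq ?_) h3
    field_simp
  have hδAn : δ * (A * n) ≤ t / 2 + 3 * A * δ := by
    have h3 := mul_le_mul_of_nonneg_left hδn (show (0 : ℝ) ≤ A by linarith)
    have h4 : (A : ℝ) * (κ * t + 3 * δ) = κ * A * t + 3 * A * δ := by ring
    rw [h4, hκA] at h3
    linarith
  -- the centre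
  obtain ⟨x, hx⟩ : ∃ x : V, x = ctr δ z := ⟨_, rfl⟩
  have hsq : Sq x (A * n + 1) ⊆ Inn δ z t := by
    intro v hv
    rw [hx] at hv
    have h3 := dist_of_mem_sq hδ0 hv
    show dist (pt δ v) z ≤ t
    push_cast at h3
    have h4 : δ * (A * n + 1) = δ * (A * n) + δ := by ring
    rw [h4] at h3
    nlinarith
  have hin : ∀ v ∈ nb (Inn δ z (κ * t)), v ∈ Sq x n := by
    intro v hv
    rw [hx]
    refine mem_sq_of_dist hδ0 (nb_Inn hδ0 hv) ?_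
    have h3 : (κ * t + δ) / δ = κ * t / δ + 1 := by field_simp
    rw [h3]
    linarith
  have hout : ∀ v ∈ nb (Out δ z t), v ∉ Sq x (A * n) := by
    intro v hv hv'
    have h3 := nb_Out hδ0 hv
    rw [hx] at hv'
    have h4 := dist_of_mem_sq hδ0 hv'
    push_cast at h4
    nlinarith
  -- the large domain
  obtain ⟨m, hm⟩ := exists_nat_gt (|L| / δ)
  obtain ⟨m, hm, hm'⟩ : ∃ m : ℕ, |L| / δ ≤ m ∧ (m : ℝ) ≤ |L| / δ + 1 := by
    refine ⟨⌈|L| / δ⌉₊, Nat.le_ceil _, ?_⟩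
    exact (Nat.ceil_lt_add_one (by positivity)).le
  have hDL : ∀ v ∈ D, |(v.1 : ℝ)| ≤ |L| / δ ∧ |(v.2 : ℝ)| ≤ |L| / δ := by
    intro v hv
    have h3 : dist (pt δ v) 0 ≤ L := h2 hv
    rw [Prod.dist_eq, max_le_iff, Real.dist_eq, Real.dist_eq] at h3
    unfold pt at h3
    simp only [Prod.fst_zero, Prod.snd_zero, sub_zero, abs_mul, abs_of_pos hδ0] at h3
    have h4 := le_abs_self L
    rw [le_div_iff₀ hδ0, le_div_iff₀ hδ0]
    constructor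
    · linarith [h3.1]
    · linarith [h3.2]
  have hDm : D ⊆ diam (2 * m) := by
    intro v hv
    obtain ⟨h3, h4⟩ := hDL v hv
    rw [mem_diam]
    have h5 : |(v.1 : ℝ)| + |(v.2 : ℝ)| ≤ 2 * m := by linarith
    have h6 : ((|v.1| + |v.2| : ℤ) : ℝ) ≤ ((2 * m : ℕ) : ℤ) := by
      push_cast
      exact h5
    exact_mod_cast h6
  have hxD : x ∈ D := h1 (hsq ⟨by simp; nlinarith, by simp; nlinarith⟩)
  have hfar : ∃ v ∈ Sq x (n * 2 ^ j), v ∉ diam (2 * m) := by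
    refine ⟨(2 * m + 1, 0), ?_, ?_⟩
    · obtain ⟨h3, h4⟩ := hDL x hxD
      have h5 : κ * t / δ * 2 ^ j ≤ n * 2 ^ j := mul_le_mul_of_nonneg_right (by linarith) (by positivity)
      have h6 : (3 * |L| + 4) / δ ≤ κ * t / δ * 2 ^ j := by
        rw [div_mul_eq_mul_div]
        exact div_le_div_of_nonneg_right hj'.le hδ0.le
      have h7 : 3 * (|L| / δ) + 4 ≤ (3 * |L| + 4) / δ := by
        rw [add_div, mul_div_assoc]
        have : (4 : ℝ) ≤ 4 / δ := by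
          rw [le_div_iff₀ hδ0]
          linarith
        linarith
      have h8 : |((2 * m + 1 : ℤ) : ℝ) - (x.1 : ℝ)| ≤ n * 2 ^ j := by
        refine (abs_sub _ _).trans ?_
        push_cast
        rw [abs_of_nonneg (by positivity)]
        linarith
      have h9 : |((0 : ℤ) : ℝ) - (x.2 : ℝ)| ≤ n * 2 ^ j := by
        refine (abs_sub _ _).trans ?_
        push_cast
        rw [abs_zero]
        have : 0 ≤ |L| / δ := by positivity
        linarith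
      refine ⟨?_, ?_⟩
      · show |(2 * (m : ℤ) + 1) - x.1| ≤ n * 2 ^ j
        exact_mod_cast h8
      · show |0 - x.2| ≤ n * 2 ^ j
        exact_mod_cast h9
    · rw [mem_diam]
      show ¬ |(2 * (m : ℤ) + 1)| + |(0 : ℤ)| ≤ _
      rw [abs_zero, abs_of_nonneg (by positivity)]
      push_cast
      omega
  have h3 := hq' n hn3 x (diam (2 * m)) (FC.diam_SC m)
    (fun v hv => Finset.mem_coe.2 (hDm (Finset.mem_coe.1 (h1 (hsq hv))))) hfar
  have h4 : pr (Om (diam (2 * m))) (FC.Blk x n (A * n) 0) ≤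
      pr (Om (diam (2 * m))) (Bk 0 δ z (κ * t) t) := by
    refine pr_mono fun g _ hk => ?_
    intro u hu v hv huv
    refine hk ⟨u, hin u hu, v, hout v hv, huv.mono (fun _ _ h => h) ?_⟩
    intro w hw
    have hw' : g w - 2 * 0 ≠ 0 := hw
    show g w ≠ 0
    omega
  have h5 : pr (Om (diam (2 * m))) (Bk 0 δ z (κ * t) t) ≤ pr (Om D) (Bk 0 δ z (κ * t) t) := by
    refine om_dec hDm hD (bk_dec _ _ _ _) fun g g' hg => bk_loc hδ0 (by nlinarith) fun v hv => ?_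
    exact hg v (Finset.mem_coe.1 (h1 (show dist (pt δ v) z ≤ t from hv.le)))
  linarith

/-- the mass of finitely many blocks is bounded below (as `bar_pos`, with a constant for each block) -/
theorem bar_pos_c (hd : Deloc) (hF : FlatC) {W : ℝ} (hW : 0 < W) : ∃ L > W, ∀ Z : Finset (Pl × ℝ × ℝ),
    (∀ z ∈ Z, 0 < z.2.1 ∧ z.2.1 < z.2.2 ∧ dist z.1 0 + z.2.2 < W ∧ ∃ c > 0, Gdc c L z.2.1 z.2.2) →
    Z.Nonempty → ∃ c > 0, ∀ᶠ δ in 𝓝[>] (0 : ℝ), c ≤ Mp fun g => ∀ z ∈ Z, Bk 0 δ z.1 z.2.1 z.2.2 g := by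
  classical
  obtain ⟨L, hL, hbig⟩ := big_block hd hF hW
  refine ⟨L, hL, fun Z hZ hne => ?_⟩
  obtain ⟨q, hq0, hq1, hqZ⟩ : ∃ q : ℝ, 0 < q ∧ q ≤ 1 ∧ ∀ z ∈ Z, Gdc q L z.2.1 z.2.2 := by
    choose! cf hcf using fun z hz => (hZ z hz).2.2.2
    refine ⟨min 1 (Z.inf' hne cf), lt_min one_pos ((Finset.lt_inf'_iff hne).2 fun z hz => (hcf z hz).1),
      min_le_left _ _, fun z hz => ?_⟩
    have h1 := (hcf z hz).2
    unfold Gdc at h1 ⊢
    filter_upwards [h1] with δ h2 z' D a b c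
    exact ((min_le_right _ _).trans (Finset.inf'_le _ hz)).trans (h2 z' D a b c)
  refine ⟨q ^ Z.card * (1 / 2), by positivity, ?_⟩
  have hgd : ∀ᶠ δ in 𝓝[>] (0 : ℝ), ∀ z ∈ Z, (∀ (z' : Pl) (D : Finset V), BdryPar D 0 →
      Inn δ z' z.2.2 ⊆ (D : Set V) → (D : Set V) ⊆ Inn δ 0 L → q ≤ pr (Om D) (Bk 0 δ z' z.2.1 z.2.2)) ∧
        δ < z.2.1 ∧ δ < z.2.2 - z.2.1 := by
    rw [Filter.eventually_all_finset]
    intro z hz
    obtain ⟨h1, h2, -, -⟩ := hZ z hz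
    filter_upwards [hqZ z hz, small h1, small (show 0 < z.2.2 - z.2.1 by linarith)] with δ a b c
    exact ⟨a, b, c⟩
  filter_upwards [hbig, hgd, self_mem_nhdsWithin, small hW, small (show 0 < L - W by linarith)] with
    δ hM hδ hδ0 hδW hδL
  have hδ0' : (0 : ℝ) < δ := hδ0
  have hdisj : Disjoint (Inn δ (0 : Pl) W) (nb (Out δ (0 : Pl) L)) := disj_Inn_Out hδ0' (by linarith)
  have hneA : (Inn δ (0 : Pl) W).Nonempty := Inn_nonempty hδ0' 0 hδW.le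
  -- points near a block lie in the ball of radius `W`
  have hin : ∀ z ∈ Z, ∀ v : V, dist (pt δ v) z.1 ≤ z.2.2 → v ∈ Inn δ (0 : Pl) W := by
    intro z hz v hv
    have h1 := (hZ z hz).2.2.1
    have h2 := dist_triangle (pt δ v) z.1 0
    show dist (pt δ v) 0 ≤ W
    linarith
  have hloc : ∀ g g' : V → ℤ, (∀ v ∈ Inn δ (0 : Pl) W, g v = g' v) →
      ((∀ z ∈ Z, Bk 0 δ z.1 z.2.1 z.2.2 g) ↔ ∀ z ∈ Z, Bk 0 δ z.1 z.2.1 z.2.2 g') := by
    intro g g' hg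
    refine forall₂_congr fun z hz => bk_loc hδ0' (by linarith [(hδ z hz).2.2]) fun v hv => ?_
    exact hg v (hin z hz v hv.le)
  have hbk : ∀ (z : Pl) (r s : ℝ), Bk 0 δ z r s = Sep (Inn δ z r) (Out δ z s) := by
    intro z r s
    funext g
    unfold Bk
    rw [lev_zero]
  set F : (V → ℤ) → ℝ := ic fun g => ∀ z ∈ Z, Bk 0 δ z.1 z.2.1 z.2.2 g with hFdef
  have h1 : q ^ Z.card * Mp (Sep (Inn δ (0 : Pl) W) (Out δ (0 : Pl) L)) ≤
      Mr (fun g => ic (Sep (Inn δ (0 : Pl) W) (Out δ (0 : Pl) L)) g * F g) := by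
    refine M_out_ge hd hneA hdisj (compl_Out_sub hδ0' 0 L)
      (fun g g' hg => ic_congr (hloc g g' fun v hv => hg v (sub_nb _ hv))) fun U hU hAU hUB => ?_
    have h2 : avg (Om U) F = pr (Om U) fun g => ∀ z ∈ Z, Bk 0 δ z.1 z.2.1 z.2.2 g := rfl
    rw [h2]
    refine pr_all Z U hU (fun z => Bk 0 δ z.1 z.2.1 z.2.2) (fun z _ => bk_dec _ _ _ _) hq0.le
      hq1 fun z hz => ?_
    refine (hδ z hz).1 z.1 U hU (fun v hv => hAU (sub_nb _ (hin z hz v hv))) fun v hv => ?_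
    have h3 : ¬ L ≤ dist (pt δ v) 0 := hUB hv
    exact (not_le.1 h3).le
  -- the event is pinned
  obtain ⟨z₀, hz₀⟩ := hne
  have hWL : ∀ v ∈ Inn δ (0 : Pl) W, v ∈ Is δ (0 : Pl) L := by
    intro v hv
    rw [mem_Is hδ0']
    have h2 : dist (pt δ v) 0 ≤ W := hv
    linarith
  have hlocs : ∀ g g' : V → ℤ, (∀ x ∈ Is δ (0 : Pl) L, g x = g' x) → F g = F g' := fun g g' hg =>
    ic_congr (hloc g g' fun v hv => hg v (hWL v hv))
  have hPF : PR (Is δ (0 : Pl) L) F := by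
    have h2 := PR_sep (A := Inn δ z₀.1 z₀.2.1) (B := Out δ z₀.1 z₀.2.2)
      (Inn_nonempty hδ0' z₀.1 (hδ z₀ hz₀).2.1.le)
      (disj_Inn_Out hδ0' (by linarith [(hδ z₀ hz₀).2.2])) (s := Is δ (0 : Pl) L)
      (fun v hv => Finset.mem_coe.2 (hWL v (hin z₀ hz₀ v ?_))) hlocs
    · have h3 : (fun g => ic (Sep (Inn δ z₀.1 z₀.2.1) (Out δ z₀.1 z₀.2.2)) g * F g) = F := by
        funext g
        by_cases h4 : ∀ z ∈ Z, Bk 0 δ z.1 z.2.1 z.2.2 g
        · have h5 := h4 z₀ hz₀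
          rw [hbk] at h5
          have h6 : ic (Sep (Inn δ z₀.1 z₀.2.1) (Out δ z₀.1 z₀.2.2)) g = 1 := if_pos h5
          rw [h6, one_mul]
        · have h6 : F g = 0 := if_neg h4
          rw [h6, mul_zero]
      rwa [h3] at h2
    · have h3 : ¬ z₀.2.2 ≤ dist (pt δ v) z₀.1 := hv
      exact (not_le.1 h3).le
  have hPS : PR (Is δ (0 : Pl) L) fun g => ic (Sep (Inn δ (0 : Pl) W) (Out δ (0 : Pl) L)) g * F g :=
    PR_sep hneA hdisj (compl_Out_sub hδ0' 0 L) hlocs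
  have h2 : Mr (fun g => ic (Sep (Inn δ (0 : Pl) W) (Out δ (0 : Pl) L)) g * F g) ≤ Mr F := by
    refine Mr_mono hd hPS hPF fun g => ?_
    have h3 := ic_le_one (Sep (Inn δ (0 : Pl) W) (Out δ (0 : Pl) L)) g
    have h4 : 0 ≤ F g := ic_nonneg _ _
    nlinarith
  have h3 : Mp (fun g => ∀ z ∈ Z, Bk 0 δ z.1 z.2.1 z.2.2 g) = Mr F := rfl
  rw [h3]
  rw [hbk] at hM
  have h4 : (0 : ℝ) < q ^ Z.card := by positivity
  calc q ^ Z.card * (1 / 2) ≤ q ^ Z.card * Mp (Sep (Inn δ (0 : Pl) W) (Out δ (0 : Pl) L)) :=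
        mul_le_mul_of_nonneg_left hM h4.le
    _ ≤ _ := h1
    _ ≤ _ := h2

/-- **positivity**: finitely many blocks of one fixed ratio `κ` have mass bounded below -/
theorem exists_pos (hd : Deloc) : ∃ κ : ℝ, 0 < κ ∧ κ < 1 ∧ ∀ Z : Finset (Pl × ℝ × ℝ), Z.Nonempty →
    (∀ q ∈ Z, 0 < q.2.2 ∧ q.2.1 = κ * q.2.2) →
    ∃ c > 0, ∀ᶠ δ in 𝓝[>] (0 : ℝ), c ≤ MR (SW.iw (BlkF Z δ)) := by
  obtain ⟨κ, h0, h1, hκ⟩ := exists_gdc
  refine ⟨κ, h0, h1, fun Z hne hZ => ?_⟩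
  obtain ⟨W, hW, hWZ⟩ : ∃ W : ℝ, 0 < W ∧ ∀ q ∈ Z, dist q.1 0 + q.2.2 < W := by
    refine ⟨1 + ∑ q ∈ Z, (dist q.1 0 + q.2.2), ?_, fun q hq => ?_⟩
    · have : 0 ≤ ∑ q ∈ Z, (dist q.1 0 + q.2.2) :=
        Finset.sum_nonneg fun q hq => add_nonneg dist_nonneg (hZ q hq).1.le
      linarith
    · have := Finset.single_le_sum (f := fun q : Pl × ℝ × ℝ => dist q.1 0 + q.2.2)
        (fun q hq => add_nonneg dist_nonneg (hZ q hq).1.le) hq
      linarith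
  obtain ⟨L, -, h⟩ := bar_pos_c hd (FC.flatC_all hd) hW
  obtain ⟨c, hc, h2⟩ := h Z (fun q hq => by
    obtain ⟨h3, h4⟩ := hZ q hq
    refine ⟨by rw [h4]; positivity, by rw [h4]; nlinarith, hWZ q hq, ?_⟩
    rw [h4]
    exact hκ L q.2.2 h3) hne
  exact ⟨c, hc, h2⟩

end GP

end DV
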