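import Pool.Agent.Helper36.DV.Fe

/-!
# Project DV (MP_973bc8_pr), UP half: blocks of bounded level at a fixed ratio

In a domain `D` of bounded size the block whose existence is given by FLATC has a bounded level.
-/

open Finset RP4 DV LG

namespace FC

variable {D E : Finset V} {h g : V → ℤ} {x y z : V} {n N a k l s T : ℤ} {c : ℝ} {K n0 : ℤ}

/-- no even level `k` with `|k + l| ≤ T` is blocked -/
def NBl (x : V) (n N T l : ℤ) (h : V → ℤ) : Prop := ∀ k, Even k → |k + l| ≤ T → ¬ Blk x n N k h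

/-- none of these levels is blocked or crosses -/
def Wq (x : V) (n N a l : ℤ) (h : V → ℤ) : Prop :=
  ∀ k, Even k → |k + l| ≤ a → ¬ Blk x n N k h ∧ ¬ Crs x n N k h

lemma abs_lev (hs : s = 1 ∨ s = -1) (k l : ℤ) : |s * (k + 2) + l| = |k + (s * l + 2)| := by
  rcases hs with h2 | h2
  · rw [h2]
    congr 1
    ring
  · rw [h2, show -1 * (k + 2) + l = -(k + (-1 * l + 2)) by ring, abs_neg]

lemma NBl_inner (H : Stp1 E s h g) (hn : Sq x n ⊆ (E : Set V)) (hW : NBl x n N T l h) :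
    NBl x n N T (s * l + 2) g := by
  intro k hk hkl hb
  refine hW (s * (k + 2)) ((hk.add even_two).mul_left s) ?_ (blk_up H hn hb)
  rw [abs_lev H.s1]
  exact hkl

lemma Wq_inner (H : Stp1 E s h g) (hn : Sq x n ⊆ (E : Set V)) (hW : Wq x n N a l h)
    (hl : |s * l + 2| ≤ a) : Wq x n N a (s * l + 2) g := by
  have h1 : NBl x n N a (s * l + 2) g := NBl_inner H hn fun k hk hkl => (hW k hk hkl).1
  refine fun k hk hkl => ⟨h1 k hk hkl, fun hc => ?_⟩
  by_cases hN : (E : Set V) ⊆ Sq x N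
  · exact h1 0 Even.zero (by rw [zero_add]; exact hl) (blk_of_sub H hn hN)
  · refine (hW (s * (k + 2)) ((hk.add even_two).mul_left s) ?_).2 (crs_up H hn hN hk hc)
    rw [abs_lev H.s1]
    exact hkl

/-- the component which contains the square is smaller -/
lemma OmE_lt {f0 : V → ℤ} (hx : x ∈ D) (hED : E ⊆ D) (hf0 : f0 ∈ OmE D x E) : E ⊂ D := by
  refine ⟨hED, fun hDE => ?_⟩
  obtain ⟨h1, h3, h2⟩ := mem_OmE.1 hf0
  obtain ⟨z, hz⟩ := LG.exists_notMem D
  have huniv : Con (Set.univ : Set V) x z := by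
    obtain ⟨x1, x2⟩ := x
    obtain ⟨z1, z2⟩ := z
    exact Jn.trans (v := (z1, x2)) (con_row' fun _ _ _ => trivial)
      (con_col' fun _ _ _ => trivial)
  obtain ⟨a, b, -, e2, -, e4, -, e6⟩ := huniv.exit (A := (D : Set V)) hx hz
  have h4 : a ∈ Cb D f0 := bdry_sub_Cb h1 (mem_bdry.2 ⟨e4, b, adj_symm e2, e6⟩)
  have h5 : a ∈ Ex D f0 x := by
    rw [h2]
    exact hDE e4
  exact Ex_not_Cb h5 h4

/-- the trivial bound -/
lemma triv_bound {F : ℝ} (hF : F ≤ 1) {y z : V} {b : ℤ} (hb : 0 < b) (hl : b < |l|) :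
    F ≤ ((l : ℝ) ^ 2 + avg (Om D) (fun h => (h y : ℝ) * h z)) / (b : ℝ) ^ 2 := by
  have h1 := cov_nonneg D y z
  refine hF.trans ?_
  have hbR : (0 : ℝ) < b := by exact_mod_cast hb
  rw [le_div_iff₀ (by positivity), one_mul]
  have h3 : (b : ℝ) < |(l : ℝ)| := by exact_mod_cast hl
  have h4 : (b : ℝ) ^ 2 ≤ (l : ℝ) ^ 2 := by
    rw [← sq_abs (l : ℝ)]
    exact pow_le_pow_left₀ hbR.le h3.le 2
  linarith

/-- core estimate, second form -/
theorem core2 (hn0 : 0 ≤ n) (ha : 0 < a) (hy : y ∈ Sq x n) (hz : z ∈ Sq x n) :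
    ∀ (D : Finset V), SC D → Sq x n ⊆ (D : Set V) → ∀ l : ℤ,
      avg (Om D) (fun h => ind (Wq x n N a l h)) ≤
        ((l : ℝ) ^ 2 + avg (Om D) (fun h => (h y : ℝ) * h z)) / (a : ℝ) ^ 2 := by
  classical
  have hx : x ∈ Sq x n := ⟨by simpa using hn0, by simpa using hn0⟩
  have haR : (0 : ℝ) < a := by exact_mod_cast ha
  intro D
  induction D using Finset.strongInduction with
  | H D ih =>
  intro hD hn l
  have hN : (0 : ℝ) < (Om D).card := by exact_mod_cast (Om_nonempty hD.par).card_pos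
  by_cases hl : |l| ≤ a
  · have step1 : ∀ h ∈ Om D, ind (Wq x n N a l h) =
        ind (Sq x n ⊆ (Ex D h x : Set V)) * ind (Wq x n N a l h) := by
      intro h hh
      by_cases hW : Wq x n N a l h
      · have h1 : Sq x n ⊆ (Ex D h x : Set V) := by
          refine sq_sub_Ex hn0 hn fun u hu hu' => ?_
          exact (hW 0 Even.zero (by rw [zero_add]; exact hl)).2 (crs_of_Cb hD hh hu hu' N)
        rw [ind_true h1, one_mul]
      · rw [ind_false hW, mul_zero]
    have step2 : ∀ E ∈ D.powerset.filter (fun E : Finset V => Sq x n ⊆ (E : Set V)),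
        ∑ h ∈ OmE D x E, ind (Wq x n N a l h) ≤ (OmE D x E).card *
          (((l : ℝ) ^ 2 + 4 + avg (Om E) (fun g => (g y : ℝ) * g z)) / (a : ℝ) ^ 2) := by
      intro E hE
      rw [mem_filter, mem_powerset] at hE
      rcases (OmE D x E).eq_empty_or_nonempty with f0 | ⟨f0, hf0⟩
      · rw [f0]
        simp
      have hE' : SC E := by
        obtain ⟨h1, -, h2⟩ := mem_OmE.1 hf0
        rw [← h2]
        exact Ex_SC hD h1
      have hlt := OmE_lt (hn hx) hE.1 hf0
      rw [markov hD x E]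
      have key : ∀ h ∈ OmE D x E, avg (Om E) (fun g => ind (Wq x n N a l (gl E (sg E h) h g))) ≤
          ((l : ℝ) ^ 2 + 4 + avg (Om E) (fun g => (g y : ℝ) * g z)) / (a : ℝ) ^ 2 +
            (sg E h : ℝ) * (4 * l / (a : ℝ) ^ 2) := by
        intro h hh
        obtain ⟨h1, h3, h2⟩ := mem_OmE.1 hh
        have e1 : avg (Om E) (fun g => ind (Wq x n N a l (gl E (sg E h) h g))) ≤
            (((sg E h * l + 2 : ℤ) : ℝ) ^ 2 + avg (Om E) (fun g => (g y : ℝ) * g z)) /
              (a : ℝ) ^ 2 := by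
          by_cases hl2 : |sg E h * l + 2| ≤ a
          · refine le_trans (avg_mono fun g hg => ind_le_ind fun hW => ?_)
              (ih E hlt hE' hE.2 (sg E h * l + 2))
            have H := stp1 (x := x) hD h1 (g := g) (by rw [h2]; exact hg)
            rw [h2] at H
            exact Wq_inner H hE.2 hW hl2
          · push Not at hl2
            exact triv_bound (avg_le_one fun g _ => ind_le_one _) ha hl2
        refine e1.trans (le_of_eq ?_)
        have hs : (sg E h : ℝ) * (sg E h : ℝ) = 1 := by exact_mod_cast sg_sq E h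
        push_cast
        rw [show ((sg E h : ℝ) * l + 2) ^ 2 = (l : ℝ) ^ 2 + 4 + (sg E h : ℝ) * (4 * l) by
          linear_combination (l : ℝ) ^ 2 * hs]
        ring
      calc ∑ h ∈ OmE D x E, avg (Om E) (fun g => ind (Wq x n N a l (gl E (sg E h) h g)))
          ≤ ∑ h ∈ OmE D x E, (((l : ℝ) ^ 2 + 4 + avg (Om E) (fun g => (g y : ℝ) * g z)) /
            (a : ℝ) ^ 2 + (sg E h : ℝ) * (4 * l / (a : ℝ) ^ 2)) := sum_le_sum key
        _ = _ := by
          rw [sum_add_distrib, ← sum_mul, sum_sg hD x E, zero_mul, add_zero, sum_const,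
            nsmul_eq_mul]
    have h1 : avg (Om D) (fun h => ind (Wq x n N a l h)) ≤
        ∑ E ∈ D.powerset.filter (fun E : Finset V => Sq x n ⊆ (E : Set V)), pE D x E *
          (((l : ℝ) ^ 2 + 4 + avg (Om E) (fun g => (g y : ℝ) * g z)) / (a : ℝ) ^ 2) := by
      unfold avg
      rw [sum_congr rfl step1, sum_fib D hx, sum_div]
      refine sum_le_sum fun E hE => ?_
      unfold pE
      rw [div_mul_eq_mul_div]
      exact div_le_div_of_nonneg_right (step2 E hE) hN.le
    refine h1.trans ?_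
    have h2 := cov_low hD hx hy hz
    have h3 := sum_pE_le D x (fun E : Finset V => Sq x n ⊆ (E : Set V))
    have h4 : ∑ E ∈ D.powerset.filter (fun E : Finset V => Sq x n ⊆ (E : Set V)), pE D x E *
        (((l : ℝ) ^ 2 + 4 + avg (Om E) (fun g => (g y : ℝ) * g z)) / (a : ℝ) ^ 2) =
        ((l : ℝ) ^ 2 * ∑ E ∈ D.powerset.filter (fun E : Finset V => Sq x n ⊆ (E : Set V)), pE D x E +
          ∑ E ∈ D.powerset.filter (fun E : Finset V => Sq x n ⊆ (E : Set V)), pE D x E *
            (4 + avg (Om E) (fun g => (g y : ℝ) * g z))) / (a : ℝ) ^ 2 := by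
      rw [mul_sum, ← sum_add_distrib, sum_div]
      refine sum_congr rfl fun E _ => ?_
      ring
    rw [h4]
    refine div_le_div_of_nonneg_right ?_ (sq_nonneg _)
    have h5 : (0 : ℝ) ≤ (l : ℝ) ^ 2 := sq_nonneg _
    nlinarith
  · push Not at hl
    exact triv_bound (avg_le_one fun g _ => ind_le_one _) ha hl

/-- (5c), second form -/
theorem fivec2 (hLP : LP c K n0) (hc0 : 0 ≤ c) (hc : c ≤ 1) (hD : SC D) (m : ℕ) {r M : ℤ}
    (hr : 1 ≤ r) (hM : (|n0| + 5) * (2 * |K| + 6) ^ m * r ≤ M)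
    (hf : Sq x (M + 1) ⊆ (D : Set V)) {a : ℕ} (ha : 0 < a) {y z : V} (hy : y ∈ Sq x r)
    (hz : z ∈ Sq x r) :
    avg (Om D) (fun h => ind (NBl x r M a 0 h)) ≤
      avg (Om D) (fun h => (h y : ℝ) * h z) / (a : ℝ) ^ 2 + (2 * a + 1) * (1 - c / 2) ^ m := by
  have hn0 := abs_nonneg n0
  have hK := abs_nonneg K
  have hp : (1 : ℤ) ≤ (2 * |K| + 6) ^ m := one_le_pow₀ (by omega)
  have hrM : r ≤ M := by
    refine le_trans ?_ hM
    have h1 : (1 : ℤ) ≤ (|n0| + 5) * (2 * |K| + 6) ^ m := by nlinarith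
    nlinarith
  have h1 := core2 (N := M) (a := (a : ℤ)) (by omega) (by exact_mod_cast ha) hy hz D hD
    ((Sq_mono (by omega)).trans hf) 0
  have h2 : ∀ h ∈ Om D, ind (NBl x r M a 0 h) ≤ ind (Wq x r M a 0 h) +
      ∑ k ∈ Finset.Icc (-(a : ℤ)) a, ind (Even k ∧ Crs x r M k h) := by
    intro h _
    by_cases h3 : NBl x r M a 0 h
    · by_cases h4 : Wq x r M a 0 h
      · rw [ind_true h3, ind_true h4]
        have : 0 ≤ ∑ k ∈ Finset.Icc (-(a : ℤ)) a, ind (Even k ∧ Crs x r M k h) :=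
          sum_nonneg fun _ _ => ind_nonneg _
        linarith
      · rw [ind_true h3, ind_false h4, zero_add]
        have h5 : ∃ k, Even k ∧ |k + 0| ≤ (a : ℤ) ∧ Crs x r M k h := by
          by_contra h5
          push Not at h5
          exact h4 fun k hk hk2 => ⟨h3 k hk hk2, h5 k hk hk2⟩
        obtain ⟨k, hk, hka, hkc⟩ := h5
        rw [add_zero, abs_le] at hka
        have h6 := single_le_sum (f := fun k => ind (Even k ∧ Crs x r M k h))
          (fun _ _ => ind_nonneg _) (mem_Icc.2 hka)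
        simp only [ind_true (show Even k ∧ Crs x r M k h from ⟨hk, hkc⟩)] at h6
        exact h6
    · rw [ind_false h3]
      exact add_nonneg (ind_nonneg _) (sum_nonneg fun _ _ => ind_nonneg _)
  have h3 := avg_mono h2
  rw [avg_add', avg_sum'] at h3
  have h4 : ∀ k ∈ Finset.Icc (-(a : ℤ)) a,
      avg (Om D) (fun h => ind (Even k ∧ Crs x r M k h)) ≤ (1 - c / 2) ^ m := by
    intro k _
    by_cases hk : Even k
    · have h5 := crs_le (x := x) hLP hc0 hc hD.par hk m hr hM hf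
      rw [pr_eq_ind] at h5
      refine le_trans (avg_mono fun h _ => ind_le_ind fun h6 => h6.2) h5
    · have h5 : avg (Om D) (fun h => ind (Even k ∧ Crs x r M k h)) ≤ 0 := by
        refine le_trans (avg_mono (G := fun _ => 0) fun h _ => ?_) (le_of_eq ?_)
        · rw [ind_false fun h6 => hk h6.1]
        · unfold avg
          simp
      exact h5.trans (pow_nonneg (by linarith) m)
  have h5 := sum_le_card_nsmul _ _ _ h4
  have h6 : (Finset.Icc (-(a : ℤ)) a).card = 2 * a + 1 := by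
    rw [Int.card_Icc]
    omega
  rw [h6, nsmul_eq_mul] at h5
  push_cast at h5
  have h7 : ((0 : ℤ) : ℝ) ^ 2 + avg (Om D) (fun h => (h y : ℝ) * h z) =
      avg (Om D) (fun h => (h y : ℝ) * h z) := by
    push_cast
    ring
  rw [h7] at h1
  have h8 : (((a : ℤ) : ℝ)) = (a : ℝ) := by push_cast; rfl
  rw [h8] at h1
  linarith

/-- the recursion with the level -/
theorem lev5 (hLP : LP c K n0) (hc : c ≤ 1) (s : ℕ) {r N N1 a T : ℤ} (hrN : r ≤ N + 1)
    (h0 : n0 ≤ N + 1) (h1 : 1 ≤ N + 1) (h2 : (|K| + 2) ^ s * (N + 1) ≤ N1 - 1) {β : ℝ}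
    (hβ0 : 0 ≤ β) (haT : a < T)
    (hβ : ∀ E : Finset V, SC E → Sq x (N + 1) ⊆ (E : Set V) → ¬ Sq x N1 ⊆ (E : Set V) →
      avg (Om E) (fun h => ind (NBl x r N a 0 h)) ≤ β)
    (hy : y ∈ Sq x (N + 1)) (hz : z ∈ Sq x (N + 1)) :
    ∀ D : Finset V, SC D → Sq x (N + 1) ⊆ (D : Set V) → ∀ l : ℤ,
      avg (Om D) (fun h => ind (NBl x r N T l h)) ≤ β + (1 - c) ^ s +
        ((l : ℝ) ^ 2 + avg (Om D) (fun h => (h y : ℝ) * h z)) / ((T - a : ℤ) : ℝ) ^ 2 := by
  classical
  have hx : x ∈ Sq x (N + 1) := ⟨by simp; omega, by simp; omega⟩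
  have hcs : (0 : ℝ) ≤ (1 - c) ^ s := pow_nonneg (by linarith) s
  obtain ⟨b, hb⟩ : ∃ b : ℤ, b = T - a := ⟨_, rfl⟩
  rw [← hb]
  have hb0 : 0 < b := by omega
  have hbR : (0 : ℝ) < b := by exact_mod_cast hb0
  -- the bound in domains which do not contain the large square
  have hsmall : ∀ E : Finset V, SC E → Sq x (N + 1) ⊆ (E : Set V) → ¬ Sq x N1 ⊆ (E : Set V) →
      ∀ l : ℤ, avg (Om E) (fun h => ind (NBl x r N T l h)) ≤ β +
        ((l : ℝ) ^ 2 + avg (Om E) (fun h => (h y : ℝ) * h z)) / (b : ℝ) ^ 2 := by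
    intro E hE hE1 hE2 l
    have h3 := cov_nonneg E y z
    by_cases hl : |l| ≤ b
    · have h4 : avg (Om E) (fun h => ind (NBl x r N T l h)) ≤ β := by
        refine le_trans (avg_mono fun h _ => ind_le_ind fun hW => ?_) (hβ E hE hE1 hE2)
        intro k hk hka
        refine hW k hk ?_
        have h5 := abs_add_le k l
        rw [add_zero] at hka
        omega
      have h5 : 0 ≤ ((l : ℝ) ^ 2 + avg (Om E) (fun h => (h y : ℝ) * h z)) / (b : ℝ) ^ 2 := by
        positivity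
      linarith
    · push Not at hl
      have h4 := triv_bound (D := E) (y := y) (z := z)
        (avg_le_one (S := Om E) fun h _ => ind_le_one (NBl x r N T l h)) hb0 hl
      linarith
  intro D
  induction D using Finset.strongInduction with
  | H D ih =>
  intro hD hn l
  by_cases hN1 : Sq x N1 ⊆ (D : Set V)
  swap
  · have := hsmall D hD hn hN1 l
    linarith
  have hN : (0 : ℝ) < (Om D).card := by exact_mod_cast (Om_nonempty hD.par).card_pos
  have step1 : ∀ h ∈ Om D, ind (NBl x r N T l h) ≤ ind (Mt D x (N + 1) h) +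
      ind (Sq x (N + 1) ⊆ (Ex D h x : Set V)) * ind (NBl x r N T l h) := by
    intro h _
    by_cases hm : Mt D x (N + 1) h
    · rw [ind_true hm]
      have h3 := ind_le_one (NBl x r N T l h)
      have h4 := mul_nonneg (ind_nonneg (Sq x (N + 1) ⊆ (Ex D h x : Set V)))
        (ind_nonneg (NBl x r N T l h))
      linarith
    · have h3 : Sq x (N + 1) ⊆ (Ex D h x : Set V) := by
        refine sq_sub_Ex (by omega) hn fun u hu hu' => hm ⟨u, hu, hu'⟩
      rw [ind_false hm, ind_true h3]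
      linarith
  have step2 : ∀ E ∈ D.powerset.filter (fun E : Finset V => Sq x (N + 1) ⊆ (E : Set V)),
      ∑ h ∈ OmE D x E, ind (NBl x r N T l h) ≤
        ∑ h ∈ OmE D x E, (β + (1 - c) ^ s * ind (¬ Mt D x N1 h)) + (OmE D x E).card *
          (((l : ℝ) ^ 2 + 4 + avg (Om E) (fun g => (g y : ℝ) * g z)) / (b : ℝ) ^ 2) := by
    intro E hE
    rw [mem_filter, mem_powerset] at hE
    rcases (OmE D x E).eq_empty_or_nonempty with f0 | ⟨f0, hf0⟩
    · rw [f0]
      simp
    have hE' : SC E := by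
      obtain ⟨h1, -, h2⟩ := mem_OmE.1 hf0
      rw [← h2]
      exact Ex_SC hD h1
    have hlt := OmE_lt (hn hx) hE.1 hf0
    rw [markov hD x E]
    have key : ∀ h ∈ OmE D x E, avg (Om E) (fun g => ind (NBl x r N T l (gl E (sg E h) h g))) ≤
        (β + (1 - c) ^ s * ind (¬ Mt D x N1 h)) +
        (((l : ℝ) ^ 2 + 4 + avg (Om E) (fun g => (g y : ℝ) * g z)) / (b : ℝ) ^ 2 +
          (sg E h : ℝ) * (4 * l / (b : ℝ) ^ 2)) := by
      intro h hh
      obtain ⟨i1, i3, i2⟩ := mem_OmE.1 hh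
      have e1 : avg (Om E) (fun g => ind (NBl x r N T l (gl E (sg E h) h g))) ≤
          avg (Om E) (fun g => ind (NBl x r N T (sg E h * l + 2) g)) := by
        refine avg_mono fun g hg => ind_le_ind fun hW => ?_
        have H := stp1 (x := x) hD i1 (g := g) (by rw [i2]; exact hg)
        rw [i2] at H
        exact NBl_inner H ((Sq_mono hrN).trans hE.2) hW
      have e2 : avg (Om E) (fun g => ind (NBl x r N T (sg E h * l + 2) g)) ≤
          (β + (1 - c) ^ s * ind (¬ Mt D x N1 h)) +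
          (((sg E h * l + 2 : ℤ) : ℝ) ^ 2 + avg (Om E) (fun g => (g y : ℝ) * g z)) /
            (b : ℝ) ^ 2 := by
        by_cases hE1 : Sq x N1 ⊆ (E : Set V)
        · have h4 : ¬ Mt D x N1 h := by
            rintro ⟨u, hu, hu'⟩
            have h5 : u ∈ Ex D h x := by
              rw [i2]
              exact hE1 hu
            exact Ex_not_Cb h5 hu'
          rw [ind_true h4, mul_one]
          exact ih E hlt hE' hE.2 _
        · have h4 := hsmall E hE' hE.2 hE1 (sg E h * l + 2)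
          have h5 := mul_nonneg hcs (ind_nonneg (¬ Mt D x N1 h))
          linarith
      refine (e1.trans e2).trans (le_of_eq ?_)
      have hs : (sg E h : ℝ) * (sg E h : ℝ) = 1 := by exact_mod_cast sg_sq E h
      push_cast
      rw [show ((sg E h : ℝ) * l + 2) ^ 2 = (l : ℝ) ^ 2 + 4 + (sg E h : ℝ) * (4 * l) by
        linear_combination (l : ℝ) ^ 2 * hs]
      ring
    refine (sum_le_sum key).trans (le_of_eq ?_)
    rw [sum_add_distrib]
    congr 1
    rw [sum_add_distrib, ← sum_mul, sum_sg hD x E, zero_mul, add_zero, sum_const, nsmul_eq_mul]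
  have step3 : avg (Om D) (fun h => ind (Sq x (N + 1) ⊆ (Ex D h x : Set V)) *
      ind (NBl x r N T l h)) ≤ avg (Om D) (fun h => β + (1 - c) ^ s * ind (¬ Mt D x N1 h)) +
      ∑ E ∈ D.powerset.filter (fun E : Finset V => Sq x (N + 1) ⊆ (E : Set V)), pE D x E *
        (((l : ℝ) ^ 2 + 4 + avg (Om E) (fun g => (g y : ℝ) * g z)) / (b : ℝ) ^ 2) := by
    have h3 : ∑ h ∈ Om D, ind (Sq x (N + 1) ⊆ (Ex D h x : Set V)) * ind (NBl x r N T l h) ≤
        ∑ h ∈ Om D, (β + (1 - c) ^ s * ind (¬ Mt D x N1 h)) +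
        ∑ E ∈ D.powerset.filter (fun E : Finset V => Sq x (N + 1) ⊆ (E : Set V)),
          (OmE D x E).card *
          (((l : ℝ) ^ 2 + 4 + avg (Om E) (fun g => (g y : ℝ) * g z)) / (b : ℝ) ^ 2) := by
      rw [sum_fib D hx]
      refine (sum_le_sum step2).trans ?_
      rw [sum_add_distrib]
      have h4 : ∑ E ∈ D.powerset.filter (fun E : Finset V => Sq x (N + 1) ⊆ (E : Set V)),
          ∑ h ∈ OmE D x E, (β + (1 - c) ^ s * ind (¬ Mt D x N1 h)) ≤
          ∑ h ∈ Om D, (β + (1 - c) ^ s * ind (¬ Mt D x N1 h)) := by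
        rw [← sum_fib D hx]
        refine sum_le_sum fun h _ => ?_
        have h4 := ind_le_one (Sq x (N + 1) ⊆ (Ex D h x : Set V))
        have h5 := mul_nonneg hcs (ind_nonneg (¬ Mt D x N1 h))
        have h6 := ind_nonneg (Sq x (N + 1) ⊆ (Ex D h x : Set V))
        nlinarith
      linarith
    have h4 := div_le_div_of_nonneg_right h3 hN.le
    rw [add_div] at h4
    have h5 : avg (Om D) (fun h => ind (Sq x (N + 1) ⊆ (Ex D h x : Set V)) *
        ind (NBl x r N T l h)) = (∑ h ∈ Om D, ind (Sq x (N + 1) ⊆ (Ex D h x : Set V)) *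
        ind (NBl x r N T l h)) / (Om D).card := rfl
    have h6 : avg (Om D) (fun h => β + (1 - c) ^ s * ind (¬ Mt D x N1 h)) =
        (∑ h ∈ Om D, (β + (1 - c) ^ s * ind (¬ Mt D x N1 h))) / (Om D).card := rfl
    rw [h5, h6]
    refine h4.trans (le_of_eq ?_)
    congr 1
    rw [sum_div]
    refine sum_congr rfl fun E _ => ?_
    unfold pE
    ring
  have step4 : avg (Om D) (fun h => β + (1 - c) ^ s * ind (¬ Mt D x N1 h)) =
      β + (1 - c) ^ s * (1 - pr (Om D) (Mt D x N1)) := by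
    rw [← pr_not (Om_nonempty hD.par), pr_eq_ind]
    unfold avg
    rw [sum_add_distrib, ← mul_sum, sum_const, nsmul_eq_mul]
    field_simp
  have step5 := pr_Mt hLP hc hD.par s h0 h1 h2 hN1
  have step6 := avg_mono step1
  have h7 := pr_eq_ind (Om D) (Mt D x (N + 1))
  rw [avg_add', ← h7] at step6
  rw [step4] at step3
  have h8 : ∑ E ∈ D.powerset.filter (fun E : Finset V => Sq x (N + 1) ⊆ (E : Set V)), pE D x E *
      (((l : ℝ) ^ 2 + 4 + avg (Om E) (fun g => (g y : ℝ) * g z)) / (b : ℝ) ^ 2) ≤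
      ((l : ℝ) ^ 2 + avg (Om D) (fun h => (h y : ℝ) * h z)) / (b : ℝ) ^ 2 := by
    have h2 := cov_low hD hx hy hz
    have h3 := sum_pE_le D x (fun E : Finset V => Sq x (N + 1) ⊆ (E : Set V))
    have h4 : ∑ E ∈ D.powerset.filter (fun E : Finset V => Sq x (N + 1) ⊆ (E : Set V)), pE D x E *
        (((l : ℝ) ^ 2 + 4 + avg (Om E) (fun g => (g y : ℝ) * g z)) / (b : ℝ) ^ 2) =
        ((l : ℝ) ^ 2 * ∑ E ∈ D.powerset.filter (fun E : Finset V => Sq x (N + 1) ⊆ (E : Set V)),
          pE D x E +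
          ∑ E ∈ D.powerset.filter (fun E : Finset V => Sq x (N + 1) ⊆ (E : Set V)), pE D x E *
            (4 + avg (Om E) (fun g => (g y : ℝ) * g z))) / (b : ℝ) ^ 2 := by
      rw [mul_sum, ← sum_add_distrib, sum_div]
      refine sum_congr rfl fun E _ => ?_
      ring
    rw [h4]
    refine div_le_div_of_nonneg_right ?_ (sq_nonneg _)
    have h5 : (0 : ℝ) ≤ (l : ℝ) ^ 2 := sq_nonneg _
    nlinarith
  linarith

end FC
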